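import Mathlib
import Pool.Agent.H76.RpC

namespace Pool.Agent.Results.MP_33d24b_co.Full

open Finset Pool.Agent.H76.RpA

/-- G[A] is recursively partitionable: one vertex, or connected and for every integer partition of
|A| there is a partition of A with these part sizes whose parts are RP (the one-part partition
imposes nothing). -/
def RP {V : Type} [DecidableEq V] (G : SimpleGraph V) (A : Finset V) : Prop :=
  A.card = 1 ∨ ((G.induce (A : Set V)).Connected ∧ ∀ p : Nat.Partition A.card,
    ∃ P : Finpartition A, P.parts.val.map card = p.parts ∧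
      ∀ B ∈ P.parts, ∀ _h : B.card < A.card, RP G B)
termination_by A.card

/-- Two distinct vertices are adjacent iff one of them is central (label none) or they have the
same label. -/
def labelGraph {V : Type} {k : ℕ} (pt : V → Option (Fin k)) : SimpleGraph V where
  Adj u v := u ≠ v ∧ (pt u = none ∨ pt v = none ∨ pt u = pt v)
  symm := ⟨fun _ _ h => ⟨h.1.symm, by
    rcases h.2 with h | h | h
    · exact Or.inr (Or.inl h)
    · exact Or.inl h
    · exact Or.inr (Or.inr h.symm)⟩⟩
  loopless := ⟨fun _ h => h.1 rfl⟩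

/-- The semistar K_{b0}(b 1, ..., b k). -/
def semistar (b0 : ℕ) {k : ℕ} (b : Fin k → ℕ) : SimpleGraph (Fin b0 ⊕ (Σ i : Fin k, Fin (b i))) :=
  labelGraph (Sum.elim (fun _ => none) (fun x => some x.1))

section

variable {V : Type} [DecidableEq V] {k : ℕ} (pt : V → Option (Fin k))

def fb (A : Finset V) (o : Option (Fin k)) : Finset V := A.filter fun v => pt v = o

def pf (A : Finset V) : Multiset ℕ := (univ : Finset (Fin k)).val.map fun i => (fb pt A (some i)).card

theorem card_eq (A : Finset V) : A.card = (fb pt A none).card + (pf pt A).sum := by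
  rw [card_eq_sum_card_fiberwise (f := pt) (t := univ) (fun _ _ => by simp), Fintype.sum_option]
  rfl

theorem fb_union {A B : Finset V} (h : Disjoint A B) (o : Option (Fin k)) :
    (fb pt (A ∪ B) o).card = (fb pt A o).card + (fb pt B o).card := by
  unfold fb
  rw [filter_union, card_union_of_disjoint (disjoint_filter_filter h)]

theorem nz_card (A : Finset V) :
    Multiset.card (nz (pf pt A)) = (univ.filter fun i => (fb pt A (some i)).Nonempty).card := by
  unfold nz pf
  rw [Multiset.filter_map, Multiset.card_map]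
  simp only [Function.comp_def, card_pos]
  rfl

theorem to_Q : ∀ n (A : Finset V), A.card = n → RP (labelGraph pt) A →
    Q (fb pt A none).card (pf pt A) := by
  intro n
  induction n using Nat.strong_induction_on with
  | _ n ih =>
    intro A hn h
    have hc := card_eq pt A
    rw [RP] at h
    rcases h with h | ⟨h1, h2⟩
    · rw [Q]; left; omega
    refine Q_intro ?_ fun a ha hb => ?_
    · by_cases h0 : 1 ≤ (fb pt A none).card
      · exact Or.inl h0
      right
      have h3 : ∀ v ∈ A, pt v ≠ none := fun v hv e =>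
        h0 (card_pos.2 ⟨v, mem_filter.2 ⟨hv, e⟩⟩)
      obtain ⟨⟨u, hu⟩⟩ := h1.nonempty
      have h4 : ∀ v ∈ A, pt u = pt v := by
        intro v hv
        have := h1.preconnected ⟨u, hu⟩ ⟨v, hv⟩
        rw [SimpleGraph.reachable_iff_reflTransGen] at this
        have k : ∀ w : (A : Set V), Relation.ReflTransGen
            ((labelGraph pt).induce (A : Set V)).Adj ⟨u, hu⟩ w → pt u = pt w := by
          intro w hw
          induction hw with
          | refl => rfl
          | @tail x y _ hxy ih' =>
            rcases hxy.2 with e | e | e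
            · exact absurd e (h3 _ x.2)
            · exact absurd e (h3 _ y.2)
            · exact ih'.trans e
        exact k _ this
      obtain ⟨i, hi⟩ := Option.ne_none_iff_exists'.1 (h3 u hu)
      rw [nz_card, card_eq_one]
      refine ⟨i, eq_singleton_iff_unique_mem.2 ⟨mem_filter.2 ⟨mem_univ _, u,
        mem_filter.2 ⟨hu, hi⟩⟩, fun j hj => ?_⟩⟩
      obtain ⟨v, hv⟩ := (mem_filter.1 hj).2
      have := h4 v (mem_filter.1 hv).1
      rw [hi, (mem_filter.1 hv).2] at this
      exact (Option.some.inj this).symm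
    · obtain ⟨P, e, hP⟩ := h2 ⟨{a, A.card - a}, by
        intro i hi
        simp only [Multiset.insert_eq_cons, Multiset.mem_cons, Multiset.mem_singleton] at hi
        omega, by simp; omega⟩
      simp only [Multiset.insert_eq_cons] at e
      obtain ⟨B1, b1, c1, e⟩ := (Multiset.map_eq_cons _ _ _ _).2 e
      obtain ⟨B2, e2, c2⟩ := Multiset.map_eq_singleton.1 e
      have e3 : P.parts.val = B1 ::ₘ {B2} := by rw [← e2, Multiset.cons_erase b1]
      have b2 : B2 ∈ P.parts := by rw [← mem_val, e3]; simp
      have hne : B1 ≠ B2 := by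
        have := P.parts.nodup
        rw [e3] at this
        simpa using this
      have hd : Disjoint B1 B2 := P.disjoint (mem_coe.2 b1) (mem_coe.2 b2) hne
      have hu : A = B1 ∪ B2 := by
        have e4 : P.parts = {B1, B2} := by
          ext B; rw [← mem_val, e3]; simp
        rw [← P.sup_parts, e4]; simp
      refine ⟨(fb pt B1 none).card, (fb pt B2 none).card, (univ : Finset (Fin k)).val.map
        fun i => ((fb pt B1 (some i)).card, (fb pt B2 (some i)).card), ?_, ?_, ?_, ?_, ?_⟩
      · rw [hu, fb_union pt hd]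
      · rw [Multiset.map_map, pf]
        exact Multiset.map_congr rfl fun i _ => by rw [hu, fb_union pt hd]; rfl
      · rw [Multiset.map_map, ← c1, card_eq pt B1]; rfl
      · rw [Multiset.map_map]
        exact ih _ (by omega) B1 rfl (hP B1 b1 (by omega))
      · rw [Multiset.map_map]
        exact ih _ (by omega) B2 rfl (hP B2 b2 (by omega))

theorem lift {ι : Type} [DecidableEq ι] (v : ι → ℕ) (s : Finset ι) :
    ∀ P : Multiset (ℕ × ℕ), P.map ad = s.val.map v →
      ∃ f : ι → ℕ × ℕ, (∀ i ∈ s, ad (f i) = v i) ∧ P = s.val.map f := by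
  induction s using Finset.induction_on with
  | empty => exact fun P h => ⟨fun _ => (0, 0), by simp, by simpa using h⟩
  | insert i s hi ih =>
    intro P h
    rw [insert_val_of_notMem hi, Multiset.map_cons] at h
    obtain ⟨p, hp, e1, e2⟩ := (Multiset.map_eq_cons _ _ _ _).2 h
    obtain ⟨f, f1, f2⟩ := ih _ e2
    have k : ∀ j ∈ s, Function.update f i p j = f j := fun j hj =>
      Function.update_of_ne (fun (e : j = i) => hi (e ▸ hj)) _ _
    refine ⟨Function.update f i p, fun j hj => ?_, ?_⟩
    · rcases mem_insert.1 hj with rfl | hj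
      · simpa using e1
      · rw [k j hj]; exact f1 j hj
    · rw [insert_val_of_notMem hi, Multiset.map_cons, Function.update_self,
        Multiset.map_congr rfl k, ← f2, Multiset.cons_erase hp]

theorem split (A : Finset V) (h : Q (fb pt A none).card (pf pt A)) (a : ℕ) (h1 : 1 ≤ a)
    (h2 : a < A.card) : ∃ B ⊆ A, B.card = a ∧ Q (fb pt B none).card (pf pt B) ∧
      Q (fb pt (A \ B) none).card (pf pt (A \ B)) := by
  obtain ⟨c1, c2, P, a1, a2, a3, a4, a5⟩ := Q_split h h1 (card_eq pt A ▸ h2)
  obtain ⟨f, f1, rfl⟩ := lift _ _ P a2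
  let t : Option (Fin k) → ℕ × ℕ := fun o => o.elim (c1, c2) f
  have ht : ∀ o, (t o).1 + (t o).2 = (fb pt A o).card := by
    rintro (_ | i)
    · exact a1
    · exact f1 i (mem_univ _)
  choose S hS hS' using fun o => exists_subset_card_eq (s := fb pt A o) (n := (t o).1)
    (by have := ht o; omega)
  have hB : univ.biUnion S ⊆ A := biUnion_subset.2 fun o _ => (hS o).trans (filter_subset _ _)
  have k1 : ∀ o, (fb pt (univ.biUnion S) o).card = (t o).1 := by
    intro o
    rw [← hS' o]
    congr 1
    ext v
    simp only [fb, mem_filter, mem_biUnion, mem_univ, true_and]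
    exact ⟨fun ⟨⟨o', h3⟩, h4⟩ => by rwa [← h4, (mem_filter.1 (hS o' h3)).2],
      fun h3 => ⟨⟨o, h3⟩, (mem_filter.1 (hS o h3)).2⟩⟩
  have k2 : ∀ o, (fb pt (A \ univ.biUnion S) o).card = (t o).2 := by
    intro o
    have := fb_union pt (sdiff_disjoint (s := univ.biUnion S) (t := A)) o
    rw [sdiff_union_of_subset hB, k1] at this
    have := ht o
    omega
  rw [Multiset.map_map] at a3 a4 a5
  refine ⟨_, hB, ?_, ?_, ?_⟩
  · rw [card_eq pt, ← a3]; simp only [pf, k1]; rfl
  · simp only [pf, k1]; exact a4
  · simp only [pf, k2]; exact a5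

theorem parts (m : Multiset ℕ) : ∀ A : Finset V, Q (fb pt A none).card (pf pt A) → m ≠ 0 →
    (∀ x ∈ m, 0 < x) → m.sum = A.card → ∃ P : Finpartition A, P.parts.val.map card = m ∧
      ∀ B ∈ P.parts, Q (fb pt B none).card (pf pt B) := by
  induction m using Multiset.induction_on with
  | empty => exact fun _ _ h => absurd rfl h
  | cons a m ih =>
    intro A h _ hp hs
    have ha := hp a (by simp)
    rw [Multiset.sum_cons] at hs
    by_cases hm : m = 0
    · subst hm
      have : A ≠ ⊥ := by rintro rfl; simp at hs; omega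
      exact ⟨Finpartition.indiscrete this, by simp at hs; simp [hs], by simpa using h⟩
    · have h3 := card_le_sum m fun x hx => hp x (Multiset.mem_cons_of_mem hx)
      have h4 := Multiset.card_pos.2 hm
      obtain ⟨B, b1, b2, b3, b4⟩ := split pt A h a ha (by omega)
      obtain ⟨P, p1, p2⟩ := ih (A \ B) b4 hm (fun x hx => hp x (Multiset.mem_cons_of_mem hx))
        (by rw [card_sdiff_of_subset b1]; omega)
      have hB : B ≠ ⊥ := by rintro rfl; simp at b2; omega
      have hn : B ∉ P.parts := fun hB' => hB (by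
        have := P.le hB'
        exact disjoint_self.1 (disjoint_sdiff.mono_right this))
      refine ⟨P.extend hB sdiff_disjoint (sdiff_union_of_subset b1), ?_, ?_⟩
      · rw [Finpartition.extend_parts, insert_val_of_notMem hn, Multiset.map_cons, p1, b2]
      · rw [Finpartition.extend_parts]
        intro C hC
        rcases mem_insert.1 hC with rfl | hC
        · exact b3
        · exact p2 C hC

theorem of_Q : ∀ n (A : Finset V), A.card = n → Q (fb pt A none).card (pf pt A) →
    RP (labelGraph pt) A := by
  intro n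
  induction n using Nat.strong_induction_on with
  | _ n ih =>
    intro A hn h
    obtain ⟨z, hz, hz'⟩ : ∃ z ∈ A, ∀ v ∈ A, pt z = none ∨ pt v = none ∨ pt z = pt v := by
      rcases Q_conn h with h1 | h1
      · obtain ⟨z, hz⟩ := card_pos.1 h1
        exact ⟨z, (mem_filter.1 hz).1, fun _ _ => Or.inl (mem_filter.1 hz).2⟩
      · rw [nz_card, card_eq_one] at h1
        obtain ⟨i, hi⟩ := h1
        obtain ⟨z, hz⟩ := (mem_filter.1 (hi ▸ mem_singleton_self i)).2
        refine ⟨z, (mem_filter.1 hz).1, fun v hv => ?_⟩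
        rcases e : pt v with _ | j
        · exact Or.inr (Or.inl rfl)
        · have : j ∈ ({i} : Finset (Fin k)) := by
            rw [← hi]; exact mem_filter.2 ⟨mem_univ _, v, mem_filter.2 ⟨hv, e⟩⟩
          rw [mem_singleton.1 this]
          exact Or.inr (Or.inr (mem_filter.1 hz).2)
    rw [RP]
    refine Or.inr ⟨?_, fun p => ?_⟩
    · rw [SimpleGraph.connected_iff_exists_forall_reachable]
      refine ⟨⟨z, hz⟩, fun w => ?_⟩
      by_cases e : z = w
      · obtain rfl : ⟨z, hz⟩ = w := Subtype.ext e
        rfl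
      · exact SimpleGraph.Adj.reachable ⟨e, hz' _ w.2⟩
    · obtain ⟨P, p1, p2⟩ := parts pt p.parts A h (fun e => by
        have a1 := p.parts_sum
        rw [e, Multiset.sum_zero] at a1
        have := card_pos.2 ⟨z, hz⟩
        omega) (fun x hx => p.parts_pos hx) p.parts_sum
      exact ⟨P, p1, fun B hB hlt => ih _ (hn ▸ hlt) B rfl (p2 B hB)⟩

end

theorem prof (b0 : ℕ) {k : ℕ} (b : Fin k → ℕ) :
    RP (semistar b0 b) univ ↔ Q b0 ((univ : Finset (Fin k)).val.map b) := by
  have e1 : (fb (Sum.elim (fun _ => none) (fun x => some x.1) :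
      Fin b0 ⊕ (Σ i : Fin k, Fin (b i)) → Option (Fin k)) univ none).card = b0 := by
    rw [fb, ← Fintype.card_subtype, Fintype.card_congr (Equiv.subtypeSum)]
    simp
  have e2 : pf (Sum.elim (fun _ => none) (fun x => some x.1) :
      Fin b0 ⊕ (Σ i : Fin k, Fin (b i)) → Option (Fin k)) univ =
      (univ : Finset (Fin k)).val.map b := by
    refine Multiset.map_congr rfl fun i _ => ?_
    rw [fb, ← Fintype.card_subtype, Fintype.card_congr (Equiv.subtypeSum)]
    simp only [Sum.elim_inl, Sum.elim_inr, Option.some.injEq, Fintype.card_sum]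
    rw [Fintype.card_congr (Equiv.sigmaSubtype i)]
    simp
  rw [← e2]
  conv_rhs => enter [1]; rw [← e1]
  exact ⟨to_Q _ _ _ rfl, of_Q _ _ _ rfl⟩

theorem result : ∃ b0 k : ℕ, 0 < b0 ∧ 0 < k ∧
    {b : Fin k → ℕ | Monotone b ∧ (∀ i, 1 ≤ b i) ∧ RP (semistar b0 b) univ}.Finite ∧
    {b : Fin k → ℕ | Monotone b ∧ (∀ i, 1 ≤ b i) ∧ RP (semistar b0 b) univ}.Nonempty := by
  refine ⟨3, 8, by omega, by omega, ?_, ![1, 1, 1, 2, 2, 3, 4, 6], by decide, by decide, ?_⟩
  · refine (Set.Finite.pi' (fun _ : Fin 8 => Set.finite_Iic 38)).subset ?_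
    rintro b ⟨-, h1, h2⟩ i
    have := Pool.Agent.H76.RpC.bound ((prof 3 b).1 h2) (by
      intro x hx
      obtain ⟨j, -, rfl⟩ := Multiset.mem_map.1 hx
      exact h1 j) (by simp)
    exact (Multiset.single_le_sum (by simp) _ (Multiset.mem_map_of_mem b (mem_univ i))).trans this
  · rw [prof]
    exact Pool.Agent.H76.RpC.top

end Pool.Agent.Results.MP_33d24b_co.Full
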